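import Pool.Agent.Run7.h406.Dual2

/-!
Complementary dimensions `d + e = n`: orthogonal complements exchange the two exponents.
-/

set_option autoImplicit false

namespace Pool.Agent.Results.MP_fea266_nt.Complementary

open Run7.h406.Stmt

/-- If `d + e = n`, then `μ_n(Aᗮ|d)_j = μ_n(A|e)_j` for every `A` of dimension `d`, and
`μ_n(d|e)_j = μ_n(e|d)_j`, for every `j ≤ min d e`. -/
theorem result (n d e j : ℕ) (hj : 1 ≤ j) (hjd : j ≤ d) (hje : j ≤ e) (hde : d + e = n) :
    (∀ A : Sub n, dim A = d → muA Aᗮ d j = muA A e j) ∧ mu n d e j = mu n e d j := by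
  constructor
  · intro A hA
    rw [Run7.h406.stmt_muA, Run7.h406.stmt_muA]
    exact Run7.h406.muA_orth hj hjd hje hde hA
  · rw [Run7.h406.stmt_mu, Run7.h406.stmt_mu]
    exact Run7.h406.mu_orth hj hjd hje hde

end Pool.Agent.Results.MP_fea266_nt.Complementary
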