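import Pool.Agent.Run7.h406.Equiv

/-!
Two-sided bounds, symmetric in `d` and `e`, for Schmidt's exponents `μ_n(d|e)_j`; they coincide
when `j = min d e`, which gives the exact value and the symmetry in that case.
-/

set_option autoImplicit false

namespace Pool.Agent.Results.MP_fea266_nt.TwoSided

open Run7.h406.Stmt
open scoped ENNReal

/-- Both bounds for `μ_n(d|e)_j`, for all `n, d, e, j`, and the exact value for `j = min d e`. -/
theorem result (n d e j : ℕ) (hj : 1 ≤ j) (hjd : j ≤ d) (hje : j ≤ e) (hde : d + e ≤ n) :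
    (ENNReal.ofReal ((n : ℝ) * (n - j) / (j * (n - d) * (n - e))) ≤ mu n d e j ∧
      mu n d e j ≤ ENNReal.ofReal ((n : ℝ) / (j * (n - d - e + j)))) ∧
    (ENNReal.ofReal ((n : ℝ) * (n - j) / (j * (n - d) * (n - e))) ≤ mu n e d j ∧
      mu n e d j ≤ ENNReal.ofReal ((n : ℝ) / (j * (n - d - e + j)))) ∧
    (j = min d e →
      mu n d e j = mu n e d j ∧
      mu n d e j = ENNReal.ofReal ((n : ℝ) / (j * (n - (max d e : ℕ))))) := by
  simp only [Run7.h406.stmt_mu]
  have low : ∀ d e : ℕ, j ≤ d → j ≤ e → d + e ≤ n →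
      ENNReal.ofReal ((n : ℝ) * (n - j) / (j * (n - d) * (n - e))) ≤ Run7.h406.mu n d e j := by
    intro d e hjd hje hde
    unfold Run7.h406.mu
    exact le_iInf₂ fun A hA => Run7.h406.lower hj hjd hje (by omega) (by omega) hA
  have h1 := low d e hjd hje hde
  have h2 : Run7.h406.mu n d e j ≤ ENNReal.ofReal ((n : ℝ) / (j * (n - d - e + j))) :=
    Run7.h406.upper hj hjd hje hde
  have h3 : ENNReal.ofReal ((n : ℝ) * (n - j) / (j * (n - d) * (n - e))) ≤
      Run7.h406.mu n e d j := by
    have := low e d hje hjd (by omega)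
    have e1 : (n : ℝ) * (n - j) / (j * (n - e) * (n - d)) =
      (n : ℝ) * (n - j) / (j * (n - d) * (n - e)) := by ring
    rwa [e1] at this
  have h4 : Run7.h406.mu n e d j ≤ ENNReal.ofReal ((n : ℝ) / (j * (n - d - e + j))) := by
    have := Run7.h406.upper (n := n) hj hje hjd (by omega)
    have e1 : (n : ℝ) / (j * (n - e - d + j)) = (n : ℝ) / (j * (n - d - e + j)) := by ring
    rwa [e1] at this
  refine ⟨⟨h1, h2⟩, ⟨h3, h4⟩, ?_⟩
  intro hmin
  have hn : (0 : ℝ) < n := by exact_mod_cast (by omega : 0 < n)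
  have hj' : (0 : ℝ) < j := by exact_mod_cast (by omega : 0 < j)
  have hnd : (0 : ℝ) < n - d := by
    have : (d : ℝ) < n := by exact_mod_cast (by omega : d < n)
    linarith
  have hne : (0 : ℝ) < n - e := by
    have : (e : ℝ) < n := by exact_mod_cast (by omega : e < n)
    linarith
  have key : (n : ℝ) * (n - j) / (j * (n - d) * (n - e)) =
      (n : ℝ) / (j * (n - (max d e : ℕ))) ∧
      (n : ℝ) / (j * (n - d - e + j)) = (n : ℝ) / (j * (n - (max d e : ℕ))) := by
    rcases le_total d e with h | h
    · have hjd2 : j = d := by omega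
      have hmax : max d e = e := max_eq_right h
      rw [hmax, hjd2]
      constructor
      · rw [hjd2] at hj'
        field_simp
      · congr 2; ring
    · have hje2 : j = e := by omega
      have hmax : max d e = d := max_eq_left h
      rw [hmax, hje2]
      constructor
      · rw [hje2] at hj'
        field_simp
      · congr 2; ring
  rw [key.1] at h1 h3
  rw [key.2] at h2 h4
  have h5 := le_antisymm h2 h1
  have h6 := le_antisymm h4 h3
  exact ⟨h5.trans h6.symm, h5⟩

end Pool.Agent.Results.MP_fea266_nt.TwoSided
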